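import Pool.Agent.R136.HessTrace

/-!
# MP_513174_co: a type C dot action character which is not a combination of coset characters

For `n = 3`, type C, let `H` be the Hessenberg space of all `A ∈ sp_6` with `ω(A x, y) = 0` for all
`x, y` in the span of `e_1, e_2`. The roots `α > 0` with `g_{-α} ⊆ H` are
`x_1-x_2, x_1-x_3, x_1+x_3, x_2-x_3, x_2+x_3, 2x_3`. The character of `W_3` on the degree two part of
the left quotient takes the value `-1` at the element `-1`, while a combination of coset characters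
with non-negative integer coefficients has no negative values.
-/

set_option autoImplicit false

open Pool.Agent.R136.Hess

namespace Pool.Agent.Results.MP_513174_co.NotReflPositive

/-- the Hessenberg space -/
def Hex : Submodule ℂ (Matrix (L 3) (L 3) ℂ) where
  carrier := {A | A ∈ sp 3 ∧ ∀ a b : L 3, (a = (0, true) ∨ a = (1, true)) →
    (b = (0, false) ∨ b = (1, false)) → A a b = 0}
  add_mem' := by
    rintro A B ⟨hA, hA'⟩ ⟨hB, hB'⟩
    exact ⟨(sp 3).add_mem hA hB, fun a b h h' => by
      rw [Matrix.add_apply, hA' a b h h', hB' a b h h', add_zero]⟩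
  zero_mem' := ⟨(sp 3).zero_mem, fun a b _ _ => rfl⟩
  smul_mem' := by
    rintro c A ⟨hA, hA'⟩
    exact ⟨(sp 3).smul_mem c hA, fun a b h h' => by
      rw [Matrix.smul_apply, hA' a b h h', smul_zero]⟩

lemma sp_bracket {n : ℕ} (A B : Matrix (L n) (L n) ℂ) (hA : A ∈ sp n) (hB : B ∈ sp n) :
    A * B - B * A ∈ sp n := by
  have h1 : A.transpose * gram n = -(gram n * A) := eq_neg_of_add_eq_zero_left hA
  have h2 : B.transpose * gram n = -(gram n * B) := eq_neg_of_add_eq_zero_left hB
  show (A * B - B * A).transpose * gram n + gram n * (A * B - B * A) = 0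
  rw [Matrix.transpose_sub, Matrix.transpose_mul, Matrix.transpose_mul, Matrix.sub_mul,
    Matrix.mul_sub, Matrix.mul_assoc, Matrix.mul_assoc, h1, h2, Matrix.mul_neg, Matrix.mul_neg,
    ← Matrix.mul_assoc, ← Matrix.mul_assoc, h1, h2, Matrix.neg_mul, Matrix.neg_mul,
    Matrix.mul_assoc, Matrix.mul_assoc]
  abel

lemma ord_big : ∀ a c : L 3, (a = (0, true) ∨ a = (1, true)) →
    (ord c < ord a ∨ c = (0, true) ∨ c = (1, true)) := by decide

lemma ord_small : ∀ b c : L 3, (b = (0, false) ∨ b = (1, false)) →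
    (ord b < ord c ∨ c = (0, false) ∨ c = (1, false)) := by decide

lemma ord_lt : ∀ a b : L 3, (a = (0, true) ∨ a = (1, true)) → (b = (0, false) ∨ b = (1, false)) →
    ord b < ord a := by decide

lemma Hex_hess : IsHess Hex := by
  refine ⟨?_, fun A hA => hA.1, ?_⟩
  · rintro A ⟨h1, h2⟩
    exact ⟨h1, fun a b ha hb => h2 a b (ord_lt a b ha hb)⟩
  · rintro A ⟨hA, hA'⟩ B ⟨hB, hB'⟩
    refine ⟨sp_bracket A B hA hB, fun a b ha hb => ?_⟩
    rw [Matrix.sub_apply, Matrix.mul_apply, Matrix.mul_apply]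
    have e1 : ∑ c, A a c * B c b = 0 := by
      apply Finset.sum_eq_zero
      intro c _
      rcases ord_big a c ha with h | h
      · rw [hA' a c h, zero_mul]
      · rw [hB' c b h hb, mul_zero]
    have e2 : ∑ c, B a c * A c b = 0 := by
      apply Finset.sum_eq_zero
      intro c _
      rcases ord_small b c hb with h | h
      · rw [hA' c b h, mul_zero]
      · rw [hB' a c ha h, zero_mul]
    rw [e1, e2, sub_zero]

lemma tv_cst (q : Fin 3 → ℤ) (a : L 3) : tv (cst q) a = (xz q a : ℂ) := by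
  unfold tv xz cst
  split_ifs <;> push_cast <;> rfl

lemma sep3 : ∀ p ∈ I6, ∀ c d : L 3, (c = (0, true) ∨ c = (1, true)) →
    (d = (0, false) ∨ d = (1, false)) →
    ∃ q ∈ pts, xz q c - xz q d ≠ xz q p.2 - xz q p.1 := by decide +kernel

lemma I6_ord : ∀ p ∈ I6, ord p.1 < ord p.2 := by decide +kernel

lemma I6_sub (p : L 3 × L 3) (hp : p ∈ I6) : p ∈ rootsOf Hex := by
  refine ⟨I6_ord p hp, ?_⟩
  rintro A ⟨hA, hw⟩
  refine ⟨hA, fun c d hc hd => ?_⟩
  obtain ⟨q, _, hq⟩ := sep3 p hp c d hc hd
  have h := congrFun (congrFun (hw (cst q)) c) d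
  rw [Matrix.sub_apply, torus, Matrix.diagonal_mul, Matrix.mul_diagonal, Matrix.smul_apply,
    smul_eq_mul, tv_cst, tv_cst, tv_cst, tv_cst] at h
  have h2 : (((xz q c - xz q d) - (xz q p.2 - xz q p.1) : ℤ) : ℂ) * A c d = 0 := by
    push_cast
    linear_combination h
  rcases mul_eq_zero.mp h2 with h3 | h3
  · exfalso
    apply hq
    have : (xz q c - xz q d) - (xz q p.2 - xz q p.1) = 0 := by exact_mod_cast h3
    omega
  · exact h3

/-- a root vector of `x_b - x_a` -/
def rootVec (a b : L 3) : Matrix (L 3) (L 3) ℂ :=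
  fun c d => if (c = b ∧ d = a) ∨ (c = neg a ∧ d = neg b) then 1 else 0

lemma tv_neg {n : ℕ} (t : Fin n → ℂ) (a : L n) : tv t (neg a) = -tv t a := by
  rcases a with ⟨i, b⟩
  cases b <;> simp [tv, neg]

lemma nn {n : ℕ} (a : L n) : neg (neg a) = a := Pool.Agent.R136.Hess.neg_neg a

lemma neg_inj {n : ℕ} (a b : L n) : neg a = neg b ↔ a = b := by
  constructor
  · intro h
    rw [← nn a, h, nn]
  · intro h; rw [h]

lemma neg_eq_iff {n : ℕ} (a b : L n) : neg a = b ↔ a = neg b := by
  rw [← neg_inj (neg a) b, nn]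

lemma rootVec_mem (a b : L 3) (ha : a.2 = false) (hb : b.2 = true) :
    rootVec a b ∈ rootSpace b a := by
  constructor
  · show (rootVec a b).transpose * gram 3 + gram 3 * rootVec a b = 0
    ext x y
    rw [Matrix.add_apply, Matrix.mul_apply, Matrix.mul_apply, Matrix.zero_apply]
    have e1 : ∑ c, (rootVec a b).transpose x c * gram 3 c y =
        rootVec a b (neg y) x * (if (neg y).2 = true then -1 else 1) := by
      rw [Finset.sum_eq_single (neg y)]
      · rw [Matrix.transpose_apply, gram, if_pos (nn y).symm]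
      · intro c _ hc
        rw [gram, if_neg, mul_zero]
        intro h
        exact hc (by rw [h, nn])
      · intro h; exact absurd (Finset.mem_univ _) h
    have e2 : ∑ c, gram 3 x c * rootVec a b c y =
        (if x.2 = true then -1 else 1) * rootVec a b (neg x) y := by
      rw [Finset.sum_eq_single (neg x)]
      · rw [gram, if_pos rfl]
      · intro c _ hc
        rw [gram, if_neg hc, zero_mul]
      · intro h; exact absurd (Finset.mem_univ _) h
    rw [e1, e2]
    have k1 : rootVec a b (neg y) x =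
        if (y = neg b ∧ x = a) ∨ (y = a ∧ x = neg b) then 1 else 0 := by
      refine if_congr ?_ rfl rfl
      rw [neg_inj, neg_eq_iff]
    have k2 : rootVec a b (neg x) y =
        if (y = neg b ∧ x = a) ∨ (y = a ∧ x = neg b) then 1 else 0 := by
      refine if_congr ?_ rfl rfl
      rw [neg_inj, neg_eq_iff]
      constructor
      · rintro (⟨h1, h2⟩ | ⟨h1, h2⟩)
        · exact Or.inr ⟨h2, h1⟩
        · exact Or.inl ⟨h2, h1⟩
      · rintro (⟨h1, h2⟩ | ⟨h1, h2⟩)
        · exact Or.inr ⟨h2, h1⟩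
        · exact Or.inl ⟨h2, h1⟩
    rw [k1, k2]
    have n1 : ∀ c : L 3, (neg c).2 = !c.2 := fun c => rfl
    by_cases h1 : (y = neg b ∧ x = a) ∨ (y = a ∧ x = neg b)
    · rw [if_pos h1]
      rcases h1 with ⟨rfl, rfl⟩ | ⟨rfl, rfl⟩
      · rw [nn, hb, ha]; simp
      · rw [n1, n1, ha, hb]; simp
    · rw [if_neg h1]; ring
  · intro t
    ext c d
    rw [Matrix.sub_apply, torus, Matrix.diagonal_mul, Matrix.mul_diagonal, Matrix.smul_apply,
      smul_eq_mul]
    unfold rootVec
    split_ifs with h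
    · rcases h with ⟨rfl, rfl⟩ | ⟨rfl, rfl⟩
      · ring
      · rw [tv_neg, tv_neg]; ring
    · ring

lemma classify : ∀ p : L 3 × L 3, ord p.1 < ord p.2 → (p ∈ I6 ∨ (neg p.2, neg p.1) ∈ I6) ∨
    ((p.1 = (0, false) ∨ p.1 = (1, false)) ∧ (p.2 = (0, true) ∨ p.2 = (1, true))) := by
  decide +kernel

lemma roots_sub (p : L 3 × L 3) (hp : p ∈ rootsOf Hex) :
    p ∈ I6 ∨ (neg p.2, neg p.1) ∈ I6 := by
  obtain ⟨h1, h2⟩ := hp
  rcases classify p h1 with h | ⟨h3, h4⟩
  · exact h
  · exfalso
    have ha : p.1.2 = false := by rcases h3 with h | h <;> rw [h]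
    have hb : p.2.2 = true := by rcases h4 with h | h <;> rw [h]
    have h5 := h2 (rootVec_mem p.1 p.2 ha hb)
    have h6 := h5.2 p.2 p.1 h4 h3
    unfold rootVec at h6
    rw [if_pos (Or.inl ⟨rfl, rfl⟩)] at h6
    exact one_ne_zero h6

/-- There is a type C Hessenberg space (for `n = 3`) such that the character of the degree two part of
the left quotient is not a linear combination of the characters `π_R`, `R` a reflection subgroup, with
non-negative integer coefficients. -/
theorem result : ∃ H : Submodule ℂ (Matrix (L 3) (L 3) ℂ), IsHess H ∧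
    ¬ ∃ c : Subgroup (W 3) →₀ ℕ, (∀ R ∈ c.support, IsReflSubgroup R) ∧
      ∀ w : W 3, Lchar (rootsOf H) 2 w = ((c.sum fun R m => m * permChar R w : ℕ) : ℂ) := by
  refine ⟨Hex, Hex_hess, ?_⟩
  rintro ⟨c, _, hc⟩
  obtain ⟨z, hz, hL⟩ := Lchar_neg (rootsOf Hex) I6_sub roots_sub
  have h := hc negW
  rw [hL] at h
  have h2 : z = ((c.sum fun R m => m * permChar R negW : ℕ) : ℤ) := by exact_mod_cast h
  omega

end Pool.Agent.Results.MP_513174_co.NotReflPositive
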